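import Pool.Agent.W470.Sen.All

set_option autoImplicit false

/-!
# Power means of the distances from a zero to the critical points: all exponents, all equality cases

Let `p` be a polynomial of degree `n ≥ 2` with all zeros in the closed unit disc, `a` a zero of `p`
which is not a critical point, and `s ≥ 2`. Then `∑ |w - a|^(-s) ≥ n - 1`, the sum being over the
critical points `w` with multiplicity, and equality holds if and only if `|a| = 1` and
`p = c (z^n - a^n)`.
-/

open Polynomial

namespace Pool.Agent.Results.MP_f0bc87_an.AllNegativeExponents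

/-- The inequality for the exponent `-2` in terms of multisets. -/
theorem base {p : ℂ[X]} (hn : 2 ≤ p.natDegree) (hp : ∀ z ∈ p.roots, ‖z‖ ≤ 1) {a : ℂ}
    (ha : a ∈ p.roots) (hd : a ∉ (derivative p).roots) :
    ((p.natDegree - 1 : ℕ) : ℝ) ≤
      ((derivative p).roots.map (fun w : ℂ => (‖w - a‖ ^ 2)⁻¹)).sum ∧
    (‖a‖ < 1 → ((p.natDegree - 1 : ℕ) : ℝ) <
      ((derivative p).roots.map (fun w : ℂ => (‖w - a‖ ^ 2)⁻¹)).sum) := by
  have hp0 : p ≠ 0 := by
    rintro rfl
    simp at ha
  obtain ⟨m, hm⟩ : ∃ m, p.natDegree = m + 1 := ⟨p.natDegree - 1, by omega⟩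
  have hcard : p.roots.card = m + 1 := by
    rw [← hm]
    exact (IsAlgClosed.splits p).natDegree_eq_card_roots.symm
  -- enumerate the roots
  obtain ⟨l, hl⟩ := Quot.exists_rep p.roots
  have hl' : (l : Multiset ℂ) = p.roots := hl
  have hlen : l.length = m + 1 := by
    rw [← hcard, ← hl']; rfl
  let lam : Fin (m + 1) → ℂ := fun i => l.get (i.cast hlen.symm)
  have hlam : Finset.univ.val.map lam = p.roots := by
    rw [← hl']
    have h1 : Finset.univ.val.map lam = ((List.ofFn lam : List ℂ) : Multiset ℂ) := by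
      rw [List.ofFn_eq_map]
      rfl
    rw [h1]
    congr 1
    apply List.ext_get
    · simp [hlen]
    · intro n h1 h2
      simp only [List.get_eq_getElem, List.getElem_ofFn, lam]
      rfl
  have hprod : p = C p.leadingCoeff * ∏ j, (X - C (lam j)) := by
    conv_lhs => rw [(IsAlgClosed.splits p).eq_prod_roots]
    rw [← hlam, Multiset.map_map]
    rfl
  have hlc : p.leadingCoeff ≠ 0 := leadingCoeff_ne_zero.2 hp0
  have hder : (derivative p).roots = (derivative (∏ j, (X - C (lam j)))).roots := by
    conv_lhs => rw [hprod]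
    rw [derivative_C_mul, roots_C_mul _ hlc]
  obtain ⟨i, hi⟩ : ∃ i, lam i = a := by
    rw [← hlam, Multiset.mem_map] at ha
    obtain ⟨i, -, hi⟩ := ha
    exact ⟨i, hi⟩
  have hbound : ∀ i, ‖lam i‖ ≤ 1 := by
    intro i
    apply hp
    rw [← hlam, Multiset.mem_map]
    exact ⟨i, Finset.mem_univ_val i, rfl⟩
  have h := Pool.Agent.W470.Sen.general (m := m) (by omega) lam hbound i
  rw [hi, ← hder] at h
  rcases h with h | h
  · exact absurd h hd
  · rw [hm]
    exact h

theorem card_der {p : ℂ[X]} (hn : 2 ≤ p.natDegree) :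
    (derivative p).roots.card = p.natDegree - 1 := by
  rw [← (IsAlgClosed.splits (derivative p)).natDegree_eq_card_roots]
  exact natDegree_derivative p

/-- the logarithmic derivative at a point which is not a zero -/
theorem logder {q : ℂ[X]} {a : ℂ} (hq : q.eval a ≠ 0) :
    (derivative q).eval a / q.eval a = (q.roots.map (fun w : ℂ => 1 / (a - w))).sum :=
  (IsAlgClosed.splits q).eval_derivative_div_eval_of_ne_zero hq

theorem re_half {a z : ℂ} (ha : ‖a‖ = 1) (hz : ‖z‖ ≤ 1) (hne : a - z ≠ 0) :
    (1 : ℝ) / 2 ≤ (a * (1 / (a - z))).re := by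
  have h1 : a * (1 / (a - z)) = a / (a - z) := by ring
  rw [h1, Complex.div_re, ← add_div, le_div_iff₀ (Complex.normSq_pos.2 hne)]
  have h2 : Complex.normSq a = 1 := by
    rw [Complex.normSq_eq_norm_sq, ha]; norm_num
  have h3 : Complex.normSq z ≤ 1 := by
    rw [Complex.normSq_eq_norm_sq]
    nlinarith [norm_nonneg z]
  rw [Complex.normSq_apply] at h2 h3 ⊢
  simp only [Complex.sub_re, Complex.sub_im]
  nlinarith

/-- On the unit circle: the real part of `a ∑ 1/(a - w)` is at least `n - 1`. -/
theorem re_sum {p : ℂ[X]} (hn : 2 ≤ p.natDegree) (hp : ∀ z ∈ p.roots, ‖z‖ ≤ 1) {a : ℂ}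
    (ha : a ∈ p.roots) (hd : a ∉ (derivative p).roots) (ha1 : ‖a‖ = 1) :
    ((p.natDegree - 1 : ℕ) : ℝ) ≤
      (((derivative p).roots.map (fun w : ℂ => a * (1 / (a - w)))).sum).re := by
  have hp0 : p ≠ 0 := by
    rintro rfl
    simp at ha
  have hd0 : derivative p ≠ 0 := by
    intro h
    have := natDegree_derivative p
    rw [h, natDegree_zero] at this
    omega
  obtain ⟨q, hq⟩ := dvd_iff_isRoot.2 ((mem_roots hp0).1 ha)
  have hq0 : q ≠ 0 := by
    rintro rfl
    rw [mul_zero] at hq
    exact hp0 hq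
  have hd1 : derivative p = q + (X - C a) * derivative q := by
    rw [hq, derivative_mul, derivative_X_sub_C, one_mul]
  have hd2 : derivative (derivative p) = 2 * derivative q + (X - C a) * derivative (derivative q) := by
    rw [hd1, derivative_add, derivative_mul, derivative_X_sub_C]
    ring
  have e1 : (derivative p).eval a = q.eval a := by
    rw [hd1]; simp
  have e2 : (derivative (derivative p)).eval a = 2 * (derivative q).eval a := by
    rw [hd2]; simp
  have hne : (derivative p).eval a ≠ 0 := by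
    intro h
    exact hd ((mem_roots hd0).2 h)
  have hqne : q.eval a ≠ 0 := by rw [← e1]; exact hne
  have hsum : ((derivative p).roots.map (fun w : ℂ => 1 / (a - w))).sum =
      2 * (q.roots.map (fun w : ℂ => 1 / (a - w))).sum := by
    rw [← logder hne, ← logder hqne, e1, e2]
    ring
  have hmul : ∀ s : Multiset ℂ, (s.map (fun w : ℂ => a * (1 / (a - w)))).sum =
      a * (s.map (fun w : ℂ => 1 / (a - w))).sum := fun s => Multiset.sum_map_mul_left
  have hqroots : ∀ z ∈ q.roots, ‖z‖ ≤ 1 ∧ a - z ≠ 0 := by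
    intro z hz
    have h1 := (mem_roots hq0).1 hz
    constructor
    · apply hp
      rw [mem_roots hp0, hq, IsRoot, eval_mul, h1, mul_zero]
    · intro h
      have : z = a := (sub_eq_zero.1 h).symm
      rw [this] at h1
      exact hqne h1
  have hqcard : q.roots.card = p.natDegree - 1 := by
    rw [← (IsAlgClosed.splits q).natDegree_eq_card_roots]
    have := natDegree_mul (X_sub_C_ne_zero a) hq0
    rw [← hq, natDegree_X_sub_C] at this
    omega
  have hre : ∀ s : Multiset ℂ, (∀ z ∈ s, ‖z‖ ≤ 1 ∧ a - z ≠ 0) →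
      (s.card : ℝ) / 2 ≤ ((s.map (fun w : ℂ => a * (1 / (a - w)))).sum).re := by
    intro s
    induction s using Multiset.induction with
    | empty => intro _; simp
    | cons z s ih =>
      intro h
      have h1 := ih (fun z hz => h z (Multiset.mem_cons_of_mem hz))
      have h2 := h z (Multiset.mem_cons_self z s)
      have h3 := re_half ha1 h2.1 h2.2
      rw [Multiset.map_cons, Multiset.sum_cons, Complex.add_re, Multiset.card_cons]
      push_cast
      linarith
  have h4 := hre q.roots hqroots
  rw [hqcard] at h4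
  have h5 : ((derivative p).roots.map (fun w : ℂ => a * (1 / (a - w)))).sum =
      2 * (q.roots.map (fun w : ℂ => a * (1 / (a - w)))).sum := by
    rw [hmul, hmul, hsum]; ring
  rw [h5]
  have h6 : (2 * (q.roots.map (fun w : ℂ => a * (1 / (a - w)))).sum).re =
      2 * ((q.roots.map (fun w : ℂ => a * (1 / (a - w)))).sum).re := by
    simp
  rw [h6]
  linarith

/-- complex numbers whose squared moduli sum to at most their number, and whose sum has real part
at least their number, are all equal to one -/
theorem all_one (s : Multiset ℂ) (u : ℂ → ℂ) (h1 : (s.card : ℝ) ≤ ((s.map u).sum).re)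
    (h2 : (s.map (fun w => ‖u w‖ ^ 2)).sum ≤ s.card) : ∀ w ∈ s, u w = 1 := by
  have h4 : ∀ z : ℂ, ‖z - 1‖ ^ 2 = ‖z‖ ^ 2 - 2 * z.re + 1 := by
    intro z
    rw [← Complex.normSq_eq_norm_sq, ← Complex.normSq_eq_norm_sq, Complex.normSq_sub]
    simp
    ring
  have h3 : (s.map (fun w => ‖u w - 1‖ ^ 2)).sum =
      (s.map (fun w => ‖u w‖ ^ 2)).sum - 2 * ((s.map u).sum).re + s.card := by
    clear h1 h2
    induction s using Multiset.induction with
    | empty => simp
    | cons z s ih =>
      rw [Multiset.map_cons, Multiset.sum_cons, ih, Multiset.map_cons, Multiset.sum_cons,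
        Multiset.map_cons, Multiset.sum_cons, Complex.add_re, Multiset.card_cons, h4]
      push_cast
      ring
  intro w hw
  have h5 : ‖u w - 1‖ ^ 2 ≤ (s.map (fun w => ‖u w - 1‖ ^ 2)).sum := by
    apply Multiset.single_le_sum
    · intro x hx
      rw [Multiset.mem_map] at hx
      obtain ⟨w, -, rfl⟩ := hx
      positivity
    · exact Multiset.mem_map_of_mem _ hw
  have h6 : ‖u w - 1‖ ^ 2 = 0 := le_antisymm (by rw [h3] at h5; linarith) (by positivity)
  have h7 : ‖u w - 1‖ = 0 := by
    exact pow_eq_zero_iff (by norm_num) |>.1 h6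
  exact sub_eq_zero.1 (norm_eq_zero.1 h7)

/-- The equality case for the exponent `-2`. -/
theorem extremal {p : ℂ[X]} (hn : 2 ≤ p.natDegree) (hp : ∀ z ∈ p.roots, ‖z‖ ≤ 1) {a : ℂ}
    (ha : a ∈ p.roots) (hd : a ∉ (derivative p).roots)
    (heq : ((derivative p).roots.map (fun w : ℂ => (‖w - a‖ ^ 2)⁻¹)).sum ≤
      ((p.natDegree - 1 : ℕ) : ℝ)) :
    ‖a‖ = 1 ∧ p = C p.leadingCoeff * (X ^ p.natDegree - C (a ^ p.natDegree)) := by
  have hp0 : p ≠ 0 := by
    rintro rfl
    simp at ha
  have ha1 : ‖a‖ = 1 := by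
    rcases (hp a ha).lt_or_eq with h | h
    · have := (base hn hp ha hd).2 h
      linarith
    · exact h
  refine ⟨ha1, ?_⟩
  have hcard := card_der hn
  have hall := all_one (derivative p).roots (fun w => a * (1 / (a - w)))
    (by rw [hcard]; exact re_sum hn hp ha hd ha1)
    (by
      rw [hcard]
      refine le_trans (le_of_eq ?_) heq
      congr 1
      apply Multiset.map_congr rfl
      intro w _
      rw [norm_mul, ha1, one_mul, norm_div, norm_one, one_div, inv_pow, norm_sub_rev])
  have hzero : ∀ w ∈ (derivative p).roots, w = 0 := by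
    intro w hw
    have h1 := hall w hw
    have h2 : a - w ≠ 0 := by
      intro h
      simp only [h, div_zero, mul_zero] at h1
      exact zero_ne_one h1
    rw [mul_one_div, div_eq_one_iff_eq h2] at h1
    have : w = a - (a - w) := by ring
    rw [this, ← h1, sub_self]
  have hrep : (derivative p).roots = Multiset.replicate (p.natDegree - 1) 0 :=
    Multiset.eq_replicate.2 ⟨hcard, hzero⟩
  have hder : derivative p = C (p.natDegree * p.leadingCoeff) * X ^ (p.natDegree - 1) := by
    conv_lhs => rw [(IsAlgClosed.splits (derivative p)).eq_prod_roots]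
    rw [hrep, Multiset.map_replicate, Multiset.prod_replicate, C_0, sub_zero]
    congr 2
    have h1 : (derivative p).natDegree = p.natDegree - 1 := natDegree_derivative p
    rw [leadingCoeff, h1, coeff_derivative, leadingCoeff]
    have h2 : p.natDegree - 1 + 1 = p.natDegree := by omega
    rw [h2]
    have h3 : ((p.natDegree - 1 : ℕ) : ℂ) + 1 = p.natDegree := by
      rw [Nat.cast_sub (by omega)]; push_cast; ring
    rw [h3, mul_comm]
  have hdiff : derivative (p - C p.leadingCoeff * X ^ p.natDegree) = 0 := by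
    rw [derivative_sub, hder, derivative_C_mul_X_pow, sub_eq_zero, mul_comm p.leadingCoeff]
  have hconst := derivative_eq_zero.1 hdiff
  obtain ⟨c, hc⟩ := natDegree_eq_zero.1 hconst
  have hp' : p = C p.leadingCoeff * X ^ p.natDegree + C c := by
    rw [hc]; ring
  have heval : (C p.leadingCoeff * X ^ p.natDegree + C c).eval a = 0 := by
    rw [← hp']
    exact (mem_roots hp0).1 ha
  simp only [eval_add, eval_mul, eval_C, eval_pow, eval_X] at heval
  have hc' : c = -(p.leadingCoeff * a ^ p.natDegree) := by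
    linear_combination heval
  conv_lhs => rw [hp', hc']
  rw [mul_sub, C_neg, C_mul, sub_eq_add_neg]

/-- Bernoulli's inequality -/
theorem bern {y s : ℝ} (hy : 0 ≤ y) (hs : 2 ≤ s) : 1 + s / 2 * (y ^ 2 - 1) ≤ y ^ s := by
  have h1 := one_add_mul_self_le_rpow_one_add (s := y ^ 2 - 1) (by nlinarith [sq_nonneg y])
    (p := s / 2) (by linarith)
  refine h1.trans (le_of_eq ?_)
  rw [show 1 + (y ^ 2 - 1) = y ^ (2 : ℝ) by
    rw [← Real.rpow_natCast]; norm_num, ← Real.rpow_mul hy]
  congr 1
  ring

theorem sum_bern (t : Multiset ℂ) (a : ℂ) {s : ℝ} (hs : 2 ≤ s) :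
    (t.card : ℝ) + s / 2 * ((t.map (fun w : ℂ => (‖w - a‖ ^ 2)⁻¹)).sum - t.card) ≤
      (t.map (fun w : ℂ => ‖w - a‖⁻¹ ^ s)).sum := by
  induction t using Multiset.induction with
  | empty => simp
  | cons z t ih =>
    rw [Multiset.map_cons, Multiset.sum_cons, Multiset.map_cons, Multiset.sum_cons,
      Multiset.card_cons]
    have h1 := bern (y := ‖z - a‖⁻¹) (by positivity) hs
    rw [inv_pow] at h1
    push_cast
    nlinarith

/-- **All power means of order at most `-2`, with all cases of equality.** Let `p` be a polynomial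
of degree `n ≥ 2` whose zeros lie in the closed unit disc and `a` a zero of `p` which is not a
critical point. -/
theorem result (p : ℂ[X]) (hn : 2 ≤ p.natDegree) (hp : ∀ z ∈ p.roots, ‖z‖ ≤ 1) (a : ℂ)
    (ha : a ∈ p.roots) (hd : a ∉ (derivative p).roots) :
    -- `∑ |w - a|^(-s) ≥ n - 1` for every `s ≥ 2`, with equality iff `|a| = 1`, `p = c (z^n - a^n)`
    (∀ s : ℝ, 2 ≤ s →
      ((p.natDegree - 1 : ℕ) : ℝ) ≤ ((derivative p).roots.map (fun w : ℂ => ‖w - a‖⁻¹ ^ s)).sum ∧
      (((derivative p).roots.map (fun w : ℂ => ‖w - a‖⁻¹ ^ s)).sum = ((p.natDegree - 1 : ℕ) : ℝ) ↔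
        ‖a‖ = 1 ∧ p = C p.leadingCoeff * (X ^ p.natDegree - C (a ^ p.natDegree)))) ∧
    -- the open disc `|w - a| < 1` contains a critical point, unless `|a| = 1`, `p = c (z^n - a^n)`
    ((∃ w ∈ (derivative p).roots, ‖w - a‖ < 1) ∨
      (‖a‖ = 1 ∧ p = C p.leadingCoeff * (X ^ p.natDegree - C (a ^ p.natDegree)))) := by
  have hp0 : p ≠ 0 := by
    rintro rfl
    simp at ha
  have hcard := card_der hn
  have hb := (base hn hp ha hd).1
  refine ⟨fun s hs => ?_, ?_⟩
  · have h1 := sum_bern (derivative p).roots a hs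
    rw [hcard] at h1
    have h2 : 0 ≤ s / 2 * (((derivative p).roots.map (fun w : ℂ => (‖w - a‖ ^ 2)⁻¹)).sum -
        ((p.natDegree - 1 : ℕ) : ℝ)) := by
      apply mul_nonneg (by linarith)
      linarith
    refine ⟨by linarith, fun h => ?_, fun h => ?_⟩
    · apply extremal hn hp ha hd
      by_contra hcon
      push Not at hcon
      have h3 : 0 < s / 2 * (((derivative p).roots.map (fun w : ℂ => (‖w - a‖ ^ 2)⁻¹)).sum -
          ((p.natDegree - 1 : ℕ) : ℝ)) := by
        apply mul_pos (by linarith)
        linarith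
      linarith
    · obtain ⟨ha1, hpe⟩ := h
      obtain ⟨c, hc⟩ : ∃ c, c = p.leadingCoeff := ⟨_, rfl⟩
      obtain ⟨n, hnd⟩ : ∃ n, n = p.natDegree := ⟨_, rfl⟩
      have hc0 : c ≠ 0 := by rw [hc]; exact leadingCoeff_ne_zero.2 hp0
      rw [← hc, ← hnd] at hpe
      have hder : derivative p = C (c * n) * X ^ (n - 1) := by
        rw [hpe, derivative_C_mul, derivative_sub, derivative_X_pow, derivative_C, sub_zero,
          ← mul_assoc, ← C_mul]
      have hn0 : (c * n : ℂ) ≠ 0 := by
        apply mul_ne_zero hc0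
        exact_mod_cast (by omega : n ≠ 0)
      have hroots : (derivative p).roots = Multiset.replicate (n - 1) 0 := by
        rw [hder, roots_C_mul _ hn0, roots_pow, roots_X, Multiset.nsmul_singleton]
      rw [hroots, ← hnd, Multiset.map_replicate, Multiset.sum_replicate, zero_sub, norm_neg, ha1,
        inv_one, Real.one_rpow, nsmul_eq_mul, mul_one]
  · by_contra hcon
    push Not at hcon
    obtain ⟨h1, h2⟩ := hcon
    have h3 : ((derivative p).roots.map (fun w : ℂ => (‖w - a‖ ^ 2)⁻¹)).sum ≤
        ((p.natDegree - 1 : ℕ) : ℝ) := by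
      rw [← hcard]
      have h4 : ∀ t : Multiset ℂ, (∀ w ∈ t, 1 ≤ ‖w - a‖) →
          (t.map (fun w : ℂ => (‖w - a‖ ^ 2)⁻¹)).sum ≤ t.card := by
        intro t
        induction t using Multiset.induction with
        | empty => intro _; simp
        | cons z t ih =>
          intro h
          have h5 := ih (fun w hw => h w (Multiset.mem_cons_of_mem hw))
          have h6 : (‖z - a‖ ^ 2)⁻¹ ≤ 1 :=
            inv_le_one_of_one_le₀ (one_le_pow₀ (h z (Multiset.mem_cons_self z t)))
          rw [Multiset.map_cons, Multiset.sum_cons, Multiset.card_cons]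
          push_cast
          linarith
      exact h4 _ h1
    obtain ⟨e1, e2⟩ := extremal hn hp ha hd h3
    exact h2 e1 e2

end Pool.Agent.Results.MP_f0bc87_an.AllNegativeExponents
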